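import Mathlib

/-!
# Slowest pairs at the integers `g_t + β g_{t-1}`: a counterexample

All definitions follow the problem file.  A *pair* is `p = (α, β)` with `α, β` relatively prime
positive integers.  The counterexample is `T = {(33, 784), (773, 263424)}` and
`(α, β) = (773, 263424)`.  Here `γ_{33,784} = 49`, `γ_{773,263424} = 1029 < 49 ^ 2`, and for every
`t ≥ 10` the `(33, 784)`-recurrence reaches `g_t + β g_{t-1}` at an index at least `t + 2`, whereas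
the `(773, 263424)`-recurrence reaches it at index `t + 1` at the latest.
-/

namespace Pool.Agent.Results.MP_1596c6_nt.SlowPairDisproof

/-- The recurrence `w_1 = a₁`, `w_2 = a₂`, `w_{k+2} = α w_{k+1} + β w_k` for `k ≥ 1`.
(The value at the index `0`, which the problem does not use, is set to `0`.) -/
def w (α β a₁ a₂ : ℕ) : ℕ → ℕ
  | 0 => 0
  | 1 => a₁
  | 2 => a₂
  | (k + 3) => α * w α β a₁ a₂ (k + 2) + β * w α β a₁ a₂ (k + 1)

/-- The sequence `g_1 = 1`, `g_2 = α`, `g_{k+2} = α g_{k+1} + β g_k` for `k ≥ 1`. -/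
def g (α β : ℕ) (k : ℕ) : ℕ := w α β 1 α k

/-- The indices `s ≥ 1` at which some `(α, β)`-recurrence with positive integer starting values
takes the value `n`. -/
def indices (α β n : ℕ) : Set ℕ :=
  {s | 1 ≤ s ∧ ∃ a₁ a₂ : ℕ, 1 ≤ a₁ ∧ 1 ≤ a₂ ∧ w α β a₁ a₂ s = n}

/-- `s_{α,β}(n)`: the latest index at which an `(α, β)`-recurrence with positive starting values
can reach `n`.  For `n, α, β ≥ 1` it is the maximum of `indices α β n`, see `isGreatest_slow`. -/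
noncomputable def slow (α β n : ℕ) : ℕ := sSup (indices α β n)

/-- `γ_{α,β} = (α + √(α² + 4β)) / 2`. -/
noncomputable def gam (p : ℕ × ℕ) : ℝ := ((p.1 : ℝ) + Real.sqrt ((p.1 : ℝ) ^ 2 + 4 * (p.2 : ℝ))) / 2

/-- `(α, β)` is a pair of relatively prime positive integers. -/
def IsPair (p : ℕ × ℕ) : Prop := 0 < p.1 ∧ 0 < p.2 ∧ Nat.Coprime p.1 p.2

/-- `ŝ_T(n) = max_{(α,β) ∈ T} s_{α,β}(n)`; it is a maximum, see `isGreatest_sHat`. -/
noncomputable def sHat (T : Set (ℕ × ℕ)) (n : ℕ) : ℕ :=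
  sSup ((fun p : ℕ × ℕ => slow p.1 p.2 n) '' T)

/-- `S_T(n)`: the pairs of `T` that attain `ŝ_T(n)`. -/
def S (T : Set (ℕ × ℕ)) (n : ℕ) : Set (ℕ × ℕ) := {p | p ∈ T ∧ slow p.1 p.2 n = sHat T n}

/-- `Γ_T = min {γ_{α,β} : (α, β) ∈ T}`. -/
noncomputable def Gam (T : Set (ℕ × ℕ)) : ℝ := sInf (gam '' T)

/-- `R_T' = {(α, β) ∈ T : γ_{α,β} < Γ_T²}`. -/
def R' (T : Set (ℕ × ℕ)) : Set (ℕ × ℕ) := {p | p ∈ T ∧ gam p < Gam T ^ 2}

/-! ### Basic facts on the recurrence -/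

lemma w_succ (α β a₁ a₂ : ℕ) {k : ℕ} (hk : 1 ≤ k) :
    w α β a₁ a₂ (k + 2) = α * w α β a₁ a₂ (k + 1) + β * w α β a₁ a₂ k := by
  obtain ⟨j, rfl⟩ : ∃ j, k = j + 1 := ⟨k - 1, by omega⟩
  rfl

lemma le_w (α β a₁ a₂ : ℕ) (hα : 1 ≤ α) (hβ : 1 ≤ β) (h₁ : 1 ≤ a₁) (h₂ : 1 ≤ a₂) (k : ℕ) :
    k + 1 ≤ w α β a₁ a₂ (k + 2) ∧ k ≤ w α β a₁ a₂ (k + 1) ∧ 1 ≤ w α β a₁ a₂ (k + 1) := by
  induction k with
  | zero => simpa [w] using ⟨h₂, h₁⟩
  | succ k ih =>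
    obtain ⟨ih1, ih2, ih3⟩ := ih
    have e3 : w α β a₁ a₂ (k + 1 + 1) = w α β a₁ a₂ (k + 2) := rfl
    refine ⟨?_, ih1, by omega⟩
    have e0 : w α β a₁ a₂ (k + 1 + 2) = α * w α β a₁ a₂ (k + 2) + β * w α β a₁ a₂ (k + 1) :=
      w_succ α β a₁ a₂ (by omega : 1 ≤ k + 1)
    have e1 : w α β a₁ a₂ (k + 2) ≤ α * w α β a₁ a₂ (k + 2) := Nat.le_mul_of_pos_left _ hα
    have e2 : w α β a₁ a₂ (k + 1) ≤ β * w α β a₁ a₂ (k + 1) := Nat.le_mul_of_pos_left _ hβ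
    omega

lemma indices_le {α β n : ℕ} (hα : 1 ≤ α) (hβ : 1 ≤ β) {s : ℕ} (hs : s ∈ indices α β n) :
    s ≤ n + 1 := by
  obtain ⟨h1, a₁, a₂, ha₁, ha₂, h⟩ := hs
  obtain ⟨k, rfl⟩ : ∃ k, s = k + 1 := ⟨s - 1, by omega⟩
  have := (le_w α β a₁ a₂ hα hβ ha₁ ha₂ k).2.1
  omega

lemma one_mem_indices {α β n : ℕ} (hn : 1 ≤ n) : 1 ∈ indices α β n :=
  ⟨le_rfl, n, 1, hn, le_rfl, rfl⟩

/-- For `n, α, β ≥ 1` the number `slow α β n` is the maximum of the indices at which `n` is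
reached. -/
theorem isGreatest_slow {α β n : ℕ} (hα : 1 ≤ α) (hβ : 1 ≤ β) (hn : 1 ≤ n) :
    IsGreatest (indices α β n) (slow α β n) := by
  have hbdd : BddAbove (indices α β n) := ⟨n + 1, fun s hs => indices_le hα hβ hs⟩
  exact ⟨Nat.sSup_mem ⟨1, one_mem_indices hn⟩ hbdd, fun s hs => le_csSup hbdd hs⟩

/-- For `n ≥ 1` and a nonempty set `T` of pairs, `sHat T n` is the maximum of the `s_{α,β}(n)`
with `(α, β) ∈ T`. -/
theorem isGreatest_sHat {T : Set (ℕ × ℕ)} (hT : T.Nonempty) (hp : ∀ p ∈ T, IsPair p) {n : ℕ}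
    (hn : 1 ≤ n) : IsGreatest ((fun p : ℕ × ℕ => slow p.1 p.2 n) '' T) (sHat T n) := by
  have hbdd : BddAbove ((fun p : ℕ × ℕ => slow p.1 p.2 n) '' T) := by
    refine ⟨n + 1, ?_⟩
    rintro _ ⟨p, hpT, rfl⟩
    have h := hp p hpT
    exact indices_le h.1 h.2.1 (isGreatest_slow h.1 h.2.1 hn).1
  exact ⟨Nat.sSup_mem (hT.image _) hbdd, fun s hs => le_csSup hbdd hs⟩

lemma w_mono (α β a₁ a₂ : ℕ) (h₁ : 1 ≤ a₁) (h₂ : 1 ≤ a₂) (k : ℕ) :
    w α β 1 1 (k + 1) ≤ w α β a₁ a₂ (k + 1) ∧ w α β 1 1 (k + 2) ≤ w α β a₁ a₂ (k + 2) := by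
  induction k with
  | zero => simpa [w] using ⟨h₁, h₂⟩
  | succ k ih =>
    refine ⟨ih.2, ?_⟩
    rw [w_succ α β 1 1 (by omega : 1 ≤ k + 1), w_succ α β a₁ a₂ (by omega : 1 ≤ k + 1)]
    exact Nat.add_le_add (Nat.mul_le_mul_left _ ih.2) (Nat.mul_le_mul_left _ ih.1)

lemma w_one_lt (α β : ℕ) (hα : 1 ≤ α) (hβ : 1 ≤ β) {i j : ℕ} (hi : 2 ≤ i) (hij : i < j) :
    w α β 1 1 i < w α β 1 1 j := by
  have step : ∀ k, 2 ≤ k → w α β 1 1 k < w α β 1 1 (k + 1) := by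
    intro k hk
    obtain ⟨m, rfl⟩ : ∃ m, k = m + 2 := ⟨k - 2, by omega⟩
    have e : w α β 1 1 (m + 2 + 1) = α * w α β 1 1 (m + 2) + β * w α β 1 1 (m + 1) :=
      w_succ α β 1 1 (by omega : 1 ≤ m + 1)
    have h1 : w α β 1 1 (m + 2) ≤ α * w α β 1 1 (m + 2) := Nat.le_mul_of_pos_left _ hα
    have h2 : w α β 1 1 (m + 1) ≤ β * w α β 1 1 (m + 1) := Nat.le_mul_of_pos_left _ hβ
    have h3 := (le_w α β 1 1 hα hβ le_rfl le_rfl m).2.2
    omega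
  induction j, hij using Nat.le_induction with
  | base => exact step i hi
  | succ j hj ih => exact lt_trans ih (step j (by omega))

/-- `g_t + β g_{t-1} = w_{t+1}(1, 1)`. -/
lemma w_one_one (α β t : ℕ) (ht : 1 ≤ t) :
    w α β 1 1 (t + 2) = g α β (t + 1) + β * g α β t := by
  have key : ∀ k, w α β 1 1 (k + 3) = g α β (k + 2) + β * g α β (k + 1) ∧
      w α β 1 1 (k + 4) = g α β (k + 3) + β * g α β (k + 2) := by
    intro k
    induction k with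
    | zero =>
      constructor
      · simp [w, g]
      · simp only [w, g]
        ring
    | succ k ih =>
      refine ⟨ih.2, ?_⟩
      rw [show k + 1 + 4 = k + 3 + 2 from rfl, w_succ α β 1 1 (by omega : 1 ≤ k + 3), ih.1]
      rw [show k + 3 + 1 = k + 4 from rfl, ih.2]
      have e1 : g α β (k + 1 + 3) = α * g α β (k + 3) + β * g α β (k + 2) :=
        w_succ α β 1 α (by omega : 1 ≤ k + 2)
      have e2 : g α β (k + 3) = α * g α β (k + 2) + β * g α β (k + 1) :=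
        w_succ α β 1 α (by omega : 1 ≤ k + 1)
      rw [show k + 1 + 2 = k + 3 from rfl, e1, e2]
      ring
  obtain ⟨k, rfl⟩ : ∃ k, t = k + 1 := ⟨t - 1, by omega⟩
  exact (key k).1

/-! ### Closed forms for the two recurrences -/

/-- `5 w_{k+1}(1, 1) = 1029 ^ k + 4 (-256) ^ k` for `(α, β) = (773, 263424)`. -/
lemma closed_big (k : ℕ) :
    (5 : ℤ) * (w 773 263424 1 1 (k + 1) : ℤ) = 1029 ^ k + 4 * (-256) ^ k ∧
    (5 : ℤ) * (w 773 263424 1 1 (k + 2) : ℤ) = 1029 ^ (k + 1) + 4 * (-256) ^ (k + 1) := by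
  induction k with
  | zero => simp [w]
  | succ k ih =>
    refine ⟨ih.2, ?_⟩
    rw [w_succ 773 263424 1 1 (by omega : 1 ≤ k + 1)]
    push_cast
    have h1 := ih.1
    have h2 := ih.2
    rw [show k + 1 + 1 = k + 2 from rfl]
    have : (5 : ℤ) * (773 * (w 773 263424 1 1 (k + 2) : ℤ) + 263424 * (w 773 263424 1 1 (k + 1) : ℤ))
        = 773 * (5 * (w 773 263424 1 1 (k + 2) : ℤ)) + 263424 * (5 * (w 773 263424 1 1 (k + 1) : ℤ)) := by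
      ring
    rw [this, h1, h2]
    ring

/-- `65 w_{k+1}(a₁, a₂) = 49 ^ k (a₂ + 16 a₁) + (-16) ^ k (49 a₁ - a₂)` for
`(α, β) = (33, 784)`. -/
lemma closed_small (a₁ a₂ k : ℕ) :
    (65 : ℤ) * (w 33 784 a₁ a₂ (k + 1) : ℤ)
      = 49 ^ k * ((a₂ : ℤ) + 16 * a₁) + (-16) ^ k * (49 * (a₁ : ℤ) - a₂) ∧
    (65 : ℤ) * (w 33 784 a₁ a₂ (k + 2) : ℤ)
      = 49 ^ (k + 1) * ((a₂ : ℤ) + 16 * a₁) + (-16) ^ (k + 1) * (49 * (a₁ : ℤ) - a₂) := by
  induction k with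
  | zero =>
    constructor <;> simp [w] <;> ring
  | succ k ih =>
    refine ⟨ih.2, ?_⟩
    rw [w_succ 33 784 a₁ a₂ (by omega : 1 ≤ k + 1)]
    push_cast
    have h1 := ih.1
    have h2 := ih.2
    rw [show k + 1 + 1 = k + 2 from rfl]
    have : (65 : ℤ) * (33 * (w 33 784 a₁ a₂ (k + 2) : ℤ) + 784 * (w 33 784 a₁ a₂ (k + 1) : ℤ))
        = 33 * (65 * (w 33 784 a₁ a₂ (k + 2) : ℤ)) + 784 * (65 * (w 33 784 a₁ a₂ (k + 1) : ℤ)) := by
      ring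
    rw [this, h1, h2]
    ring

lemma pow_bound (m : ℕ) (hm : 8 ≤ m) : (64 : ℤ) * 16 ^ m + 5 ≤ 9 * 21 ^ m := by
  induction m, hm using Nat.le_induction with
  | base => norm_num
  | succ m hm ih =>
    have h : (0 : ℤ) ≤ 21 ^ m := by positivity
    rw [pow_succ, pow_succ]
    nlinarith

/-- The starting values for the `(33, 784)`-recurrence. -/
lemma exists_start (m : ℕ) (hm : 8 ≤ m) :
    ∃ a₁ a₂ : ℕ, 1 ≤ a₁ ∧ 1 ≤ a₂ ∧ (5 : ℤ) * a₁ = 9 * 21 ^ m - 64 * 16 ^ m ∧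
      (5 : ℤ) * a₂ = 21 ^ (m + 2) + 4 * 16 ^ (m + 2) := by
  have h21 : ∀ k : ℕ, (21 : ℤ) ^ k ≡ 1 [ZMOD 5] := fun k => by
    have h : (21 : ℤ) ≡ 1 [ZMOD 5] := by decide
    simpa using h.pow k
  have h16 : ∀ k : ℕ, (16 : ℤ) ^ k ≡ 1 [ZMOD 5] := fun k => by
    have h : (16 : ℤ) ≡ 1 [ZMOD 5] := by decide
    simpa using h.pow k
  have d1 : (5 : ℤ) ∣ 9 * 21 ^ m - 64 * 16 ^ m := by
    have h := ((h21 m).mul_left 9).sub ((h16 m).mul_left 64)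
    have h' : (9 * 1 - 64 * 1 : ℤ) ≡ 0 [ZMOD 5] := by decide
    exact (Int.modEq_zero_iff_dvd).1 (h.trans h')
  have d2 : (5 : ℤ) ∣ 21 ^ (m + 2) + 4 * 16 ^ (m + 2) := by
    have h := (h21 (m + 2)).add ((h16 (m + 2)).mul_left 4)
    have h' : (1 + 4 * 1 : ℤ) ≡ 0 [ZMOD 5] := by decide
    exact (Int.modEq_zero_iff_dvd).1 (h.trans h')
  obtain ⟨x, hx⟩ := d1
  obtain ⟨y, hy⟩ := d2
  have hx1 : 1 ≤ x := by
    have := pow_bound m hm
    omega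
  have hy1 : 1 ≤ y := by
    have h : (0 : ℤ) < 21 ^ (m + 2) + 4 * 16 ^ (m + 2) := by positivity
    omega
  obtain ⟨a, rfl⟩ := Int.eq_ofNat_of_zero_le (by omega : 0 ≤ x)
  obtain ⟨b, rfl⟩ := Int.eq_ofNat_of_zero_le (by omega : 0 ≤ y)
  exact ⟨a, b, by exact_mod_cast hx1, by exact_mod_cast hy1, hx.symm, hy.symm⟩

/-- For `t ≥ 10` the `(33, 784)`-recurrence reaches `g_t + β g_{t-1}` at the index `t + 2`. -/
lemma reached (m : ℕ) (hm : 8 ≤ m) :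
    ∃ a₁ a₂ : ℕ, 1 ≤ a₁ ∧ 1 ≤ a₂ ∧
      w 33 784 a₁ a₂ (m + 4) = w 773 263424 1 1 (m + 3) := by
  obtain ⟨a₁, a₂, h1, h2, e1, e2⟩ := exists_start m hm
  refine ⟨a₁, a₂, h1, h2, ?_⟩
  have hs := (closed_small a₁ a₂ (m + 3)).1
  have hb := (closed_big (m + 2)).1
  rw [show m + 3 + 1 = m + 4 from rfl] at hs
  rw [show m + 2 + 1 = m + 3 from rfl] at hb
  have key : (65 * 5 : ℤ) * (w 33 784 a₁ a₂ (m + 4) : ℤ)
      = (65 * 5 : ℤ) * (w 773 263424 1 1 (m + 3) : ℤ) := by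
    have l : (65 * 5 : ℤ) * (w 33 784 a₁ a₂ (m + 4) : ℤ)
        = 49 ^ (m + 3) * (5 * (a₂ : ℤ) + 16 * (5 * (a₁ : ℤ)))
          + (-16) ^ (m + 3) * (49 * (5 * (a₁ : ℤ)) - 5 * (a₂ : ℤ)) := by
      linear_combination 5 * hs
    have r : (65 * 5 : ℤ) * (w 773 263424 1 1 (m + 3) : ℤ)
        = 65 * (1029 ^ (m + 2) + 4 * (-256) ^ (m + 2)) := by
      linear_combination 65 * hb
    rw [l, r, e1, e2]
    have p1 : (1029 : ℤ) ^ (m + 2) = 49 ^ (m + 2) * 21 ^ (m + 2) := by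
      rw [← mul_pow]; norm_num
    have p2 : (-256 : ℤ) ^ (m + 2) = (-16) ^ (m + 2) * 16 ^ (m + 2) := by
      rw [← mul_pow]; norm_num
    rw [p1, p2]
    have q1 : (21 : ℤ) ^ (m + 2) = 441 * 21 ^ m := by ring
    have q2 : (16 : ℤ) ^ (m + 2) = 256 * 16 ^ m := by ring
    have q3 : (49 : ℤ) ^ (m + 3) = 49 * 49 ^ (m + 2) := by ring
    have q4 : (-16 : ℤ) ^ (m + 3) = -16 * (-16) ^ (m + 2) := by ring
    rw [q1, q2, q3, q4]
    ring
  have := mul_left_cancel₀ (by norm_num : (65 * 5 : ℤ) ≠ 0) key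
  exact_mod_cast this

/-- An `(α, β)`-recurrence with positive starting values reaches `w_{t+1}(1, 1)` at the index
`t + 1` at the latest. -/
lemma slow_one_one_le {α β i : ℕ} (hα : 1 ≤ α) (hβ : 1 ≤ β) (hi : 2 ≤ i) {s : ℕ}
    (hs : s ∈ indices α β (w α β 1 1 i)) : s ≤ i := by
  obtain ⟨h1, a₁, a₂, ha₁, ha₂, h⟩ := hs
  by_contra hlt
  rw [not_le] at hlt
  obtain ⟨k, rfl⟩ : ∃ k, s = k + 1 := ⟨s - 1, by omega⟩
  have h2 := (w_mono α β a₁ a₂ ha₁ ha₂ k).1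
  have h3 := w_one_lt α β hα hβ hi hlt
  omega

/-! ### The values of `γ` -/

lemma gam_small : gam (33, 784) = 49 := by
  have : Real.sqrt (((33 : ℕ) : ℝ) ^ 2 + 4 * ((784 : ℕ) : ℝ)) = 65 := by
    rw [show (((33 : ℕ) : ℝ) ^ 2 + 4 * ((784 : ℕ) : ℝ)) = 65 ^ 2 by norm_num]
    exact Real.sqrt_sq (by norm_num)
  unfold gam
  rw [this]
  norm_num

lemma gam_big : gam (773, 263424) = 1029 := by
  have : Real.sqrt (((773 : ℕ) : ℝ) ^ 2 + 4 * ((263424 : ℕ) : ℝ)) = 1285 := by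
    rw [show (((773 : ℕ) : ℝ) ^ 2 + 4 * ((263424 : ℕ) : ℝ)) = 1285 ^ 2 by norm_num]
    exact Real.sqrt_sq (by norm_num)
  unfold gam
  rw [this]
  norm_num

/-- The set of the counterexample. -/
def T₀ : Set (ℕ × ℕ) := {(33, 784), (773, 263424)}

lemma isPair_T₀ : ∀ p ∈ T₀, IsPair p := by
  intro p hp
  rcases hp with rfl | rfl
  · exact ⟨by norm_num, by norm_num, by norm_num⟩
  · exact ⟨by norm_num, by norm_num, by norm_num⟩

lemma Gam_T₀ : Gam T₀ = 49 := by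
  unfold Gam T₀
  rw [Set.image_pair, gam_small, gam_big, csInf_pair]
  norm_num

lemma mem_R' : ((773, 263424) : ℕ × ℕ) ∈ R' T₀ := by
  refine ⟨Or.inr rfl, ?_⟩
  rw [gam_big, Gam_T₀]
  norm_num

/-- For every `t ≥ 10` the pair `(773, 263424)` is not in `S_T(g_t + β g_{t-1})`. -/
lemma not_mem_S (t : ℕ) (ht : 10 ≤ t) :
    ((773, 263424) : ℕ × ℕ) ∉ S T₀ (g 773 263424 t + 263424 * g 773 263424 (t - 1)) := by
  obtain ⟨m, rfl⟩ : ∃ m, t = m + 2 := ⟨t - 2, by omega⟩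
  have hn : g 773 263424 (m + 2) + 263424 * g 773 263424 (m + 2 - 1)
      = w 773 263424 1 1 (m + 3) :=
    (w_one_one 773 263424 (m + 1) (by omega)).symm
  rw [hn]
  set n := w 773 263424 1 1 (m + 3) with hndef
  have hn1 : 1 ≤ n := (le_w 773 263424 1 1 (by norm_num) (by norm_num) le_rfl le_rfl (m + 2)).2.2
  rintro ⟨-, hS⟩
  have hgr := isGreatest_sHat (T := T₀) ⟨_, Or.inl rfl⟩ isPair_T₀ hn1
  have h1 : slow 773 263424 n ≤ m + 3 :=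
    slow_one_one_le (by norm_num) (by norm_num) (by omega)
      (isGreatest_slow (by norm_num) (by norm_num) hn1).1
  have h2 : m + 4 ≤ slow 33 784 n := by
    obtain ⟨a₁, a₂, ha₁, ha₂, h⟩ := reached m (by omega)
    exact (isGreatest_slow (by norm_num) (by norm_num) hn1).2
      ⟨by omega, a₁, a₂, ha₁, ha₂, h⟩
  have h3 : slow 33 784 n ≤ sHat T₀ n := hgr.2 ⟨(33, 784), Or.inl rfl, rfl⟩
  simp only at hS
  omega

/-- **Disproof.**  There are a nonempty set `T` of pairs of relatively prime positive integers and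
a pair `(α, β) ∈ R_T'` for which only finitely many `t ≥ 2` satisfy
`(α, β) ∈ S_T(g_t + β g_{t-1})`. -/
theorem result :
    ∃ T : Set (ℕ × ℕ), T.Nonempty ∧ (∀ p ∈ T, IsPair p) ∧
      ∃ p ∈ R' T,
        {t : ℕ | 2 ≤ t ∧ p ∈ S T (g p.1 p.2 t + p.2 * g p.1 p.2 (t - 1))}.Finite := by
  refine ⟨T₀, ⟨_, Or.inl rfl⟩, isPair_T₀, (773, 263424), mem_R', ?_⟩
  refine (Set.finite_lt_nat 10).subset ?_
  rintro t ⟨-, ht⟩
  by_contra hlt
  exact not_mem_S t (not_lt.1 hlt) ht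

end Pool.Agent.Results.MP_1596c6_nt.SlowPairDisproof
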